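import Mathlib
import Pool.Agent.Lib.MP_ee7495_gt.Y.Ell
import Pool.Agent.Lib.MP_ee7495_gt.Y.Main

set_option autoImplicit false

open scoped RealInnerProductSpace
open Set Pool.Agent.Lib.MP_ee7495_gt.Y

namespace Pool.Agent.Results.MP_ee7495_gt.Exact

/-- The largest breadth of a space curve of length one is attained and equals `1 / ell z`, where
`z` is the unique critical point of the explicit function `ell` near `z0`, and
`ell z = 3.9051241622...`. -/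
theorem result : ∃ z : Fin 9 → ℝ, dist z z0 ≤ 1 / 10 ^ 6 ∧
    HasFDerivAt ell (0 : (Fin 9 → ℝ) →L[ℝ] ℝ) z ∧
    (∀ w, dist w z0 ≤ 1 / 10 ^ 6 → HasFDerivAt ell (0 : (Fin 9 → ℝ) →L[ℝ] ℝ) w → w = z) ∧
    3.9051241622 < ell z ∧ ell z < 3.9051241623 ∧
    IsGreatest {b : ℝ | ∃ γ : ℝ → EuclideanSpace ℝ (Fin 3),
      ContinuousOn γ (Icc 0 1) ∧ eVariationOn γ (Icc 0 1) = 1 ∧
      b = sInf {d : ℝ | ∃ u : EuclideanSpace ℝ (Fin 3), ‖u‖ = 1 ∧
        d = sSup ((fun t => ⟪γ t, u⟫) '' Icc 0 1) - sInf ((fun t => ⟪γ t, u⟫) '' Icc 0 1)}}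
      (1 / ell z) :=
  main_exact

end Pool.Agent.Results.MP_ee7495_gt.Exact
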